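import Pool.Agent.J6H54.CH.Stm

/-!
# Changing the size of the boxes
-/

set_option autoImplicit false

namespace Pool.Agent.J6H24.CH12

open Pool.Agent.J6H54.CH

/-- **CH-12**: changing the size of the boxes. -/
theorem m12 : S_enl := by
  intro Λ _ σ T p q κ M C0 C C' z₀ H hT hC hz₀
  classical
  have hC0 : 0 ≤ C0 := by linarith [H.one_le_C0]
  set B : ℝ := |C'| + 2 * C0 with hB
  have hCB : C' ≤ |C'| := le_abs_self _
  let Y : Finset Λ := (H.fin B).toFinset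
  have hY : ∀ x, x ∈ Y ↔ p x ≤ B ∧ q x ≤ B := fun x => by simp [Y]
  set c : ℕ := ∑ y ∈ Y, len σ T (y, 0) with hc
  have hlen : ∀ y ∈ Y, len σ T (y, 0) ≤ c := fun y hy =>
    Finset.single_le_sum (f := fun y => len σ T (y, 0)) (fun _ _ => Nat.zero_le _) hy
  refine ⟨((Y.card : ℝ) ^ 2 + 1) / z₀ ^ (2 * c), by positivity, fun h z hz hz1 => ?_⟩
  have hz0 : 0 < z := hz₀.trans_le hz
  have hκ : κ ^ h ≤ 1 := pow_le_one₀ H.κ_pos.le H.κ_lt.le
  -- the choices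
  have h1 : ∀ v : Λ, ∃ y, p y ≤ C0 ∧ q (v - y) ≤ C0 := fun v => by
    obtain ⟨y, hy1, hy2⟩ := H.appr 0 v
    refine ⟨y, ?_, hy2⟩
    rw [zero_sub, H.p_neg] at hy1
    exact hy1
  choose Y1 hp1 hq1 using h1
  have h2 : ∀ v : Λ, ∃ y, p ((σ ^ (-(h : ℤ))) (v - Y1 v) - y) ≤ C0 ∧ q y ≤ C0 := fun v => by
    obtain ⟨y, hy1, hy2⟩ := H.appr ((σ ^ (-(h : ℤ))) (v - Y1 v)) 0
    refine ⟨y, hy1, ?_⟩
    rw [zero_sub, H.q_neg] at hy2
    exact hy2
  choose Y2 hp2 hq2 using h2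
  let V : Λ → Λ := fun v => v - Y1 v - (σ ^ (h : ℤ)) (Y2 v)
  -- their properties
  have hmem : ∀ v ∈ bx σ p q C' h, V v ∈ bx σ p q C h ∧ Y1 v ∈ Y ∧ Y2 v ∈ Y := by
    intro v hv
    rw [mem_bx H] at hv
    obtain ⟨hv1, hv2⟩ := hv
    have a1 : q (Y1 v) ≤ C' + C0 := by
      have : Y1 v = v - (v - Y1 v) := by abel
      calc q (Y1 v) = q (v - (v - Y1 v)) := by rw [← this]
        _ ≤ q v + q (v - Y1 v) := H.q_sub _ _
        _ ≤ C' + C0 := add_le_add hv1 (hq1 v)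
    have a2 : p ((σ ^ (-(h : ℤ))) (v - Y1 v)) ≤ C' + C0 := by
      rw [map_sub]
      refine (H.p_sub _ _).trans (add_le_add hv2 ?_)
      refine (H.p_pow h (Y1 v)).trans ?_
      have h3 := H.p_nonneg (Y1 v)
      calc κ ^ h * p (Y1 v) ≤ 1 * p (Y1 v) := mul_le_mul_of_nonneg_right hκ h3
        _ ≤ C0 := by rw [one_mul]; exact hp1 v
    have a3 : p (Y2 v) ≤ C' + C0 + C0 := by
      have : Y2 v = (σ ^ (-(h : ℤ))) (v - Y1 v) - ((σ ^ (-(h : ℤ))) (v - Y1 v) - Y2 v) := by abel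
      calc p (Y2 v) = p ((σ ^ (-(h : ℤ))) (v - Y1 v) -
            ((σ ^ (-(h : ℤ))) (v - Y1 v) - Y2 v)) := by rw [← this]
        _ ≤ p ((σ ^ (-(h : ℤ))) (v - Y1 v)) + p ((σ ^ (-(h : ℤ))) (v - Y1 v) - Y2 v) :=
          H.p_sub _ _
        _ ≤ C' + C0 + C0 := add_le_add a2 (hp2 v)
    have a4 : q ((σ ^ (h : ℤ)) (Y2 v)) ≤ C0 := by
      refine (H.q_pow h (Y2 v)).trans ?_
      have h3 := H.q_nonneg (Y2 v)
      calc κ ^ h * q (Y2 v) ≤ 1 * q (Y2 v) := mul_le_mul_of_nonneg_right hκ h3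
        _ ≤ C0 := by rw [one_mul]; exact hq2 v
    refine ⟨?_, ?_, ?_⟩
    · rw [mem_bx H]
      constructor
      · have := H.q_sub (v - Y1 v) ((σ ^ (h : ℤ)) (Y2 v))
        have h3 := hq1 v
        show q (v - Y1 v - (σ ^ (h : ℤ)) (Y2 v)) ≤ C
        linarith
      · show p ((σ ^ (-(h : ℤ))) (v - Y1 v - (σ ^ (h : ℤ)) (Y2 v))) ≤ C
        rw [map_sub, pow_neg_pow]
        have h3 := hp2 v
        linarith
    · rw [hY]
      have h3 := hp1 v
      have h4 := abs_nonneg C'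
      exact ⟨by linarith, by linarith⟩
    · rw [hY]
      have h3 := hq2 v
      have h4 := abs_nonneg C'
      exact ⟨by linarith, by linarith⟩
  -- the lengths
  have hneg : ∀ y ∈ Y, len σ T (-y, 0) ≤ c := by
    intro y hy
    apply hlen
    rw [hY, H.p_neg, H.q_neg]
    exact (hY y).1 hy
  have hlv : ∀ v ∈ bx σ p q C' h, len σ T (V v, (h : ℤ)) ≤ len σ T (v, (h : ℤ)) + 2 * c := by
    intro v hv
    obtain ⟨-, hy1, hy2⟩ := hmem v hv
    have e1 := len_add hT (-Y1 v) (v + (σ ^ (h : ℤ)) (-Y2 v)) 0 ((h : ℤ) + 0)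
    have e2 := len_add hT v (-Y2 v) (h : ℤ) 0
    have e3 : -Y1 v + (σ ^ (0 : ℤ)) (v + (σ ^ (h : ℤ)) (-Y2 v)) = V v := by
      rw [pow_zero_apply, map_neg]
      simp only [V]
      abel
    have e4 : (0 : ℤ) + ((h : ℤ) + 0) = h := by ring
    rw [e3, e4] at e1
    have e5 := hneg _ hy1
    have e6 := hneg _ hy2
    omega
  -- the sum
  let φ : Λ → Λ × Λ × Λ := fun v => (V v, Y1 v, Y2 v)
  have hinj : Set.InjOn φ (bx σ p q C' h : Set Λ) := by
    intro v _ v' _ hvv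
    have e1 : V v = V v' := congrArg Prod.fst hvv
    have e2 : Y1 v = Y1 v' := congrArg (fun x => x.2.1) hvv
    have e3 : Y2 v = Y2 v' := congrArg (fun x => x.2.2) hvv
    simp only [V] at e1
    rw [e2, e3] at e1
    exact sub_left_injective (sub_left_injective e1)
  have key : z₀ ^ (2 * c) * A σ T p q C' h z ≤ (Y.card : ℝ) ^ 2 * A σ T p q C h z := by
    unfold A
    rw [Finset.mul_sum]
    calc ∑ v ∈ bx σ p q C' h, z₀ ^ (2 * c) * z ^ len σ T (v, (h : ℤ))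
        ≤ ∑ v ∈ bx σ p q C' h, z ^ len σ T ((φ v).1, (h : ℤ)) := by
          refine Finset.sum_le_sum fun v hv => ?_
          calc z₀ ^ (2 * c) * z ^ len σ T (v, (h : ℤ))
              ≤ z ^ (2 * c) * z ^ len σ T (v, (h : ℤ)) :=
                mul_le_mul_of_nonneg_right (pow_le_pow_left₀ hz₀.le hz _) (pow_pos hz0 _).le
            _ = z ^ (len σ T (v, (h : ℤ)) + 2 * c) := by rw [pow_add, mul_comm]
            _ ≤ z ^ len σ T (V v, (h : ℤ)) := pow_le_pow_of_le_one hz0.le hz1 (hlv v hv)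
      _ = ∑ x ∈ (bx σ p q C' h).image φ, z ^ len σ T (x.1, (h : ℤ)) :=
          (Finset.sum_image (f := fun x : Λ × Λ × Λ => z ^ len σ T (x.1, (h : ℤ))) hinj).symm
      _ ≤ ∑ x ∈ (bx σ p q C h) ×ˢ (Y ×ˢ Y), z ^ len σ T (x.1, (h : ℤ)) := by
          refine Finset.sum_le_sum_of_subset_of_nonneg ?_ fun _ _ _ => (pow_pos hz0 _).le
          intro x hx
          obtain ⟨v, hv, rfl⟩ := Finset.mem_image.1 hx
          obtain ⟨b1, b2, b3⟩ := hmem v hv
          exact Finset.mem_product.2 ⟨b1, Finset.mem_product.2 ⟨b2, b3⟩⟩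
      _ = (Y.card : ℝ) ^ 2 * ∑ v ∈ bx σ p q C h, z ^ len σ T (v, (h : ℤ)) := by
          rw [Finset.sum_product]
          simp only [Finset.sum_const, Finset.card_product, nsmul_eq_mul]
          rw [← Finset.mul_sum]
          push_cast
          ring
  have hA : 0 ≤ A σ T p q C h z := Finset.sum_nonneg fun _ _ => (pow_pos hz0 _).le
  rw [div_mul_eq_mul_div, le_div_iff₀ (pow_pos hz₀ _), mul_comm]
  linarith

end Pool.Agent.J6H24.CH12
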